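import Mathlib
import Pool.Agent.H.MP_4f2529_ag.Fin

namespace Pool.Agent.Results.MP_4f2529_ag.Yes

open Pool.Agent.H.MP_4f2529_ag

theorem result (k : Type) [Field k] (T : AddSubmonoid ℕ) (hT : ((T : Set ℕ)ᶜ).Finite)
    (t : ℕ) (ht : 1 < t) (htype : (PF T).ncard = t) :
    ∃ (A : Finset ℕ) (d : ℕ), 0 < d ∧ 0 ∈ A ∧ d ∈ A ∧ (∀ a ∈ A, a ≤ d) ∧ A.gcd id = 1 ∧
      AddSubmonoid.closure (A : Set ℕ) = T ∧ IsCM (coordRing k A d) ∧ cmType k A d = t := by
  classical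
  set G := hT.toFinset with hG
  have hmem : ∀ g, g ∈ G ↔ g ∉ T := fun g => by simp [hG]
  have hne : G.Nonempty := by
    by_contra h
    have hall : ∀ n, n ∈ T := fun n => by
      by_contra hn; exact h ⟨n, (hmem n).2 hn⟩
    have h1 : PF T ⊆ {-1} := by
      rintro x ⟨h1, h2⟩
      obtain ⟨n, -, hn⟩ := h2 1 (hall 1) one_ne_zero
      have h3 : x < 0 := by
        by_contra h4
        exact h1 ⟨x.toNat, hall _, by omega⟩
      change x = -1
      omega
    have := Set.ncard_le_ncard h1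
    rw [Set.ncard_singleton] at this
    omega
  set F := G.max' hne
  have hF : F ∉ T := (hmem F).1 (G.max'_mem hne)
  have hbig : ∀ x, F < x → x ∈ T := fun x hx => by
    by_contra h
    exact absurd (G.le_max' x ((hmem x).2 h)) (by omega)
  let P := G.filter fun f => ∀ s ∈ T, s ≠ 0 → f + s ∈ T
  have hP : ∀ f, f ∈ P ↔ f ∉ T ∧ ∀ s ∈ T, s ≠ 0 → f + s ∈ T := fun f => by
    simp only [P, Finset.mem_filter, hmem]
  have hFP : F ∈ P := (hP F).2 ⟨hF, fun s _ hs => hbig _ (by omega)⟩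
  have hPF : PF T = (fun n : ℕ => (n : ℤ)) '' (P : Set ℕ) := by
    ext x
    constructor
    · rintro ⟨h1, h2⟩
      have h3 : 0 ≤ x := by
        by_contra h4
        obtain ⟨n, hn, h5⟩ := h2 (F + (-x).toNat) (hbig _ (by omega)) (by omega)
        exact hF (by rwa [show n = F by omega] at hn)
      obtain ⟨f, rfl⟩ := Int.eq_ofNat_of_zero_le h3
      refine ⟨f, (hP f).2 ⟨fun h => h1 ⟨f, h, rfl⟩, fun s hs hs0 => ?_⟩, rfl⟩
      obtain ⟨n, hn, h5⟩ := h2 s hs hs0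
      rwa [show n = f + s by omega] at hn
    · rintro ⟨f, hf, rfl⟩
      obtain ⟨h1, h2⟩ := (hP f).1 hf
      refine ⟨?_, fun s hs hs0 => ⟨f + s, h2 s hs hs0, by simp⟩⟩
      rintro ⟨n, hn, h⟩
      exact h1 (by rwa [show n = f by simpa using h] at hn)
  have hcard : P.card = t := by
    rw [← htype, hPF, Set.ncard_image_of_injective _ Nat.cast_injective, Set.ncard_coe_finset]
  have hgap : ∀ g, g ∉ T → ∃ f ∈ P, ∃ a ∈ T, g + a = f := by
    intro g hg
    let H := G.filter fun g' => ∃ a ∈ T, g + a = g'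
    have hH : H.Nonempty := ⟨g, Finset.mem_filter.2 ⟨(hmem g).2 hg, 0, T.zero_mem, rfl⟩⟩
    obtain ⟨h1, a, ha, h2⟩ := Finset.mem_filter.1 (H.max'_mem hH)
    refine ⟨H.max' hH, (hP _).2 ⟨(hmem _).1 h1, fun s hs hs0 => ?_⟩, a, ha, h2⟩
    by_contra h
    have := H.le_max' (H.max' hH + s)
      (Finset.mem_filter.2 ⟨(hmem _).2 h, a + s, add_mem ha hs, by omega⟩)
    omega
  obtain ⟨d, S, h1, h2, h3, h4, h5⟩ := comb T P F hFP hbig (fun f hf => ((hP f).1 hf).1) hgap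
  let A := (Finset.range (d + 1)).filter fun a => Gen T S d a
  have hA : ∀ a, a ∈ A ↔ Gen T S d a := fun a => by
    simp only [A, Finset.mem_filter, Finset.mem_range]
    exact ⟨fun h => h.2, fun h => ⟨Nat.lt_succ_of_le h.1, h⟩⟩
  have D : Dat T S d A P := ⟨by omega, hA, hbig d h1, h2, h4, fun f hf =>
    ⟨lt_of_le_of_lt (G.le_max' f ((hmem f).2 ((hP f).1 hf).1)) h1, ((hP f).1 hf).1, h3 f hf,
      ((hP f).1 hf).2⟩, h5⟩
  refine ⟨A, d, D.pos, (hA 0).2 ⟨Nat.zero_le _, T.zero_mem, h2 _ (by simp)⟩,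
    (hA d).2 ⟨le_rfl, D.dT, by simp⟩, fun a ha => ((hA a).1 ha).1, ?_, D.closure_eq, D.isCM,
    by rw [D.cmType_eq, hcard]⟩
  have h6 : ∀ x ∈ AddSubmonoid.closure (A : Set ℕ), A.gcd id ∣ x := by
    intro x hx
    induction hx using AddSubmonoid.closure_induction with
    | mem x hx => exact Finset.gcd_dvd hx
    | zero => exact dvd_zero _
    | add x y _ _ hx hy => exact dvd_add hx hy
  rw [D.closure_eq] at h6
  have h7 := Nat.dvd_sub (h6 (F + 2) (hbig _ (by omega))) (h6 (F + 1) (hbig _ (by omega)))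
  exact Nat.dvd_one.1 (by rwa [show F + 2 - (F + 1) = 1 by omega] at h7)

end Pool.Agent.Results.MP_4f2529_ag.Yes
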